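import Mathlib
import Pool.Agent.LeoK.CountStmts

/-!
# LM2: unit squares modulo four
-/

set_option autoImplicit false

open NumberField IsDedekindDomain Module

namespace Pool.Agent.LeoK.H89

variable {k : Type} [Field k] [NumberField k]

/-- If `a ^ 2 = 1` modulo 4 then `a = 1` modulo 2. -/
lemma half {a : 𝓞 k} (h : (4 : 𝓞 k) ∣ a ^ 2 - 1) : ∃ z : 𝓞 k, a = 1 + 2 * z := by
  obtain ⟨c, hc⟩ := h
  have h2 : (2 : k) ≠ 0 := two_ne_zero
  have hint : IsIntegral (𝓞 k) (((a : k) - 1) / 2) := by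
    refine ⟨Polynomial.X ^ 2 + Polynomial.X - Polynomial.C c, ?_, ?_⟩
    · monicity!
    · have hk : (a : k) ^ 2 - 1 = 4 * (c : k) := by
        have := congrArg (algebraMap (𝓞 k) k) hc
        rw [map_sub, map_pow, map_one, map_mul, map_ofNat] at this
        exact this
      simp only [Polynomial.eval₂_sub, Polynomial.eval₂_add, Polynomial.eval₂_pow,
        Polynomial.eval₂_X, Polynomial.eval₂_C]
      have : (algebraMap (𝓞 k) k) c = ((a : k) ^ 2 - 1) / 4 := by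
        rw [hk]; field_simp
      rw [this]
      field_simp
      ring
  obtain ⟨z, hz⟩ := (IsIntegrallyClosed.isIntegral_iff (R := 𝓞 k) (K := k)).mp hint
  refine ⟨z, ?_⟩
  apply RingOfIntegers.coe_injective
  have : (a : k) = 1 + 2 * (algebraMap (𝓞 k) k z) := by
    rw [hz]; field_simp; ring
  rw [map_add, map_mul, map_one, map_ofNat]
  exact this

/-- The number of classes modulo an integer. -/
lemma card_nat (m : ℕ) : Nat.card (𝓞 k ⧸ Ideal.span {(m : 𝓞 k)}) = m ^ finrank ℚ k := by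
  have h1 : Ideal.absNorm (Ideal.span {(m : 𝓞 k)}) = m ^ finrank ℚ k := by
    rw [Ideal.absNorm_span_singleton]
    have : ((m : 𝓞 k)) = algebraMap ℤ (𝓞 k) (m : ℤ) := by simp
    rw [this, Algebra.norm_algebraMap, RingOfIntegers.rank]
    simp [Int.natAbs_pow]
  rw [← h1, Ideal.absNorm_apply, Submodule.cardQuot_apply]

instance fin4 : Finite (𝓞 k ⧸ Ideal.span {(4 : 𝓞 k)}) := by
  have h := card_nat (k := k) 4
  refine Nat.finite_of_card_ne_zero ?_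
  have h' : Nat.card (𝓞 k ⧸ Ideal.span {(4 : 𝓞 k)}) = 4 ^ finrank ℚ k := by
    simpa using h
  rw [h']
  positivity

/-- The kernel of squaring on the units modulo 4 is `O / 2`. -/
lemma card_ker :
    Nat.card (powMonoidHom 2 : (𝓞 k ⧸ Ideal.span {(4 : 𝓞 k)})ˣ →* _).ker = 2 ^ finrank ℚ k := by
  have hc : Nat.card (𝓞 k ⧸ Ideal.span {(2 : 𝓞 k)}) = 2 ^ finrank ℚ k := by
    simpa using card_nat (k := k) 2
  rw [← hc]
  symm
  have h4 : ∀ z : 𝓞 k, (Ideal.Quotient.mk (Ideal.span {(4 : 𝓞 k)})) (1 + 2 * z) ^ 2 = 1 := by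
    intro z
    rw [← map_pow, ← map_one (Ideal.Quotient.mk (Ideal.span {(4 : 𝓞 k)})), Ideal.Quotient.eq,
      Ideal.mem_span_singleton]
    exact ⟨z + z ^ 2, by ring⟩
  let g : 𝓞 k → (powMonoidHom 2 : (𝓞 k ⧸ Ideal.span {(4 : 𝓞 k)})ˣ →* _).ker := fun z =>
    ⟨⟨(Ideal.Quotient.mk (Ideal.span {(4 : 𝓞 k)})) (1 + 2 * z),
      (Ideal.Quotient.mk (Ideal.span {(4 : 𝓞 k)})) (1 + 2 * z), by rw [← sq]; exact h4 z,
      by rw [← sq]; exact h4 z⟩, by
        rw [MonoidHom.mem_ker]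
        ext
        simpa using h4 z⟩
  have hg : ∀ z z' : 𝓞 k, g z = g z' ↔ z - z' ∈ Ideal.span {(2 : 𝓞 k)} := by
    intro z z'
    rw [Subtype.ext_iff, Units.ext_iff]
    change (Ideal.Quotient.mk (Ideal.span {(4 : 𝓞 k)})) (1 + 2 * z) =
      (Ideal.Quotient.mk (Ideal.span {(4 : 𝓞 k)})) (1 + 2 * z') ↔ _
    rw [Ideal.Quotient.eq, Ideal.mem_span_singleton, Ideal.mem_span_singleton]
    constructor
    · rintro ⟨c, hc⟩
      refine ⟨c, ?_⟩
      have h2 : (2 : 𝓞 k) ≠ 0 := two_ne_zero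
      apply mul_left_cancel₀ h2
      linear_combination hc
    · rintro ⟨c, hc⟩
      exact ⟨c, by linear_combination 2 * hc⟩
  refine Nat.card_congr (Equiv.ofBijective (fun x : 𝓞 k ⧸ Ideal.span {(2 : 𝓞 k)} =>
    g (Quotient.out x)) ⟨?_, ?_⟩)
  · intro x y hxy
    have := (hg _ _).mp hxy
    rw [← Ideal.Quotient.eq] at this
    have e : ∀ x : 𝓞 k ⧸ Ideal.span {(2 : 𝓞 k)},
        (Ideal.Quotient.mk (Ideal.span {(2 : 𝓞 k)})) (Quotient.out x) = x := fun x =>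
      Quotient.out_eq x
    rwa [e, e] at this
  · rintro ⟨u, hu⟩
    obtain ⟨a, ha⟩ := Ideal.Quotient.mk_surjective (u : 𝓞 k ⧸ Ideal.span {(4 : 𝓞 k)})
    have hu2 : (u : 𝓞 k ⧸ Ideal.span {(4 : 𝓞 k)}) ^ 2 = 1 := by
      rw [MonoidHom.mem_ker] at hu
      have := congrArg Units.val hu
      simpa using this
    rw [← ha, ← map_pow, ← map_one (Ideal.Quotient.mk (Ideal.span {(4 : 𝓞 k)})),
      Ideal.Quotient.eq, Ideal.mem_span_singleton] at hu2
    obtain ⟨z, hz⟩ := half hu2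
    refine ⟨Ideal.Quotient.mk _ z, ?_⟩
    have e : (Ideal.Quotient.mk (Ideal.span {(2 : 𝓞 k)}))
        (Quotient.out (Ideal.Quotient.mk (Ideal.span {(2 : 𝓞 k)}) z)) =
        (Ideal.Quotient.mk (Ideal.span {(2 : 𝓞 k)})) z := Quotient.out_eq _
    have e2 : g (Quotient.out (Ideal.Quotient.mk (Ideal.span {(2 : 𝓞 k)}) z)) = g z := by
      rw [hg, ← Ideal.Quotient.eq]
      exact e
    change g (Quotient.out (Ideal.Quotient.mk (Ideal.span {(2 : 𝓞 k)}) z)) = _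
    rw [e2, Subtype.ext_iff, Units.ext_iff]
    change (Ideal.Quotient.mk (Ideal.span {(4 : 𝓞 k)})) (1 + 2 * z) = (u : 𝓞 k ⧸ _)
    rw [← ha, hz]

/-- LM2. -/
theorem lm2 : Lm2Stmt := by
  intro k _ _
  classical
  have hU : Nat.card (𝓞 k ⧸ Ideal.span {(4 : 𝓞 k)})ˣ =
      Nat.card (powMonoidHom 2 : (𝓞 k ⧸ Ideal.span {(4 : 𝓞 k)})ˣ →* _).range *
        Nat.card (powMonoidHom 2 : (𝓞 k ⧸ Ideal.span {(4 : 𝓞 k)})ˣ →* _).ker := by
    rw [Subgroup.card_eq_card_quotient_mul_card_subgroup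
      (powMonoidHom 2 : (𝓞 k ⧸ Ideal.span {(4 : 𝓞 k)})ˣ →* _).ker]
    congr 1
    exact Nat.card_congr (QuotientGroup.quotientKerEquivRange _).toEquiv
  rw [hU, card_ker]
  congr 1
  refine Nat.card_congr (Equiv.ofBijective
    (fun x : {x : 𝓞 k ⧸ Ideal.span {(4 : 𝓞 k)} // ∃ q, IsUnit q ∧ q ^ 2 + x = 0} =>
      (⟨x.2.choose_spec.1.unit ^ 2, x.2.choose_spec.1.unit, by simp⟩ :
        (powMonoidHom 2 : (𝓞 k ⧸ Ideal.span {(4 : 𝓞 k)})ˣ →* _).range)) ⟨?_, ?_⟩)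
  · intro x y hxy
    rw [Subtype.ext_iff, Units.ext_iff] at hxy
    have hx := x.2.choose_spec.2
    have hy := y.2.choose_spec.2
    have hxy' : x.2.choose ^ 2 = y.2.choose ^ 2 := by simpa using hxy
    rw [Subtype.ext_iff]
    linear_combination hx - hy - hxy'
  · rintro ⟨_, ⟨q, rfl⟩⟩
    refine ⟨⟨-(q : 𝓞 k ⧸ Ideal.span {(4 : 𝓞 k)}) ^ 2, q, q.isUnit, by ring⟩, ?_⟩
    rw [Subtype.ext_iff, Units.ext_iff]
    have hx : ∃ r : 𝓞 k ⧸ Ideal.span {(4 : 𝓞 k)}, IsUnit r ∧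
      r ^ 2 + (-(q : 𝓞 k ⧸ Ideal.span {(4 : 𝓞 k)}) ^ 2) = 0 := ⟨q, q.isUnit, by ring⟩
    have h := hx.choose_spec.2
    have : hx.choose ^ 2 = (q : 𝓞 k ⧸ Ideal.span {(4 : 𝓞 k)}) ^ 2 := by linear_combination h
    simpa using this

end Pool.Agent.LeoK.H89
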