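import Mathlib
import Pool.Agent.LeoK.CountStmts
import Pool.Agent.Helper89_LeoK.Lm2

/-!
# LMU: the number of units modulo four
-/

set_option autoImplicit false

open NumberField IsDedekindDomain Module

namespace Pool.Agent.LeoK.H89

/-- Units under a surjection of finite rings with nilpotent kernel. -/
lemma card_units_surj {R S : Type} [CommRing R] [CommRing S] [Finite R] (f : R →+* S)
    (hf : Function.Surjective f) (hn : ∀ x, f x = 0 → IsNilpotent x) :
    Nat.card Rˣ * Nat.card S = Nat.card R * Nat.card Sˣ := by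
  have hS : Finite S := Finite.of_surjective f hf
  have hu : ∀ x : R, IsUnit (f x) → IsUnit x := by
    intro x hx
    obtain ⟨s, hs⟩ := hx.exists_right_inv
    obtain ⟨y, rfl⟩ := hf s
    have h0 : f (x * y - 1) = 0 := by rw [map_sub, map_mul, hs, map_one, sub_self]
    have h1 : IsUnit (x * y) := by
      have := (hn _ h0).isUnit_one_add
      simpa using this
    exact isUnit_of_mul_isUnit_left h1
  have hsur : Function.Surjective (Units.map (f : R →* S)) := by
    intro u
    obtain ⟨x, hx⟩ := hf (u : S)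
    have hxu : IsUnit x := hu x (by rw [hx]; exact u.isUnit)
    refine ⟨hxu.unit, ?_⟩
    ext
    simpa using hx
  have h1 : Nat.card Rˣ = Nat.card Sˣ * Nat.card (Units.map (f : R →* S)).ker := by
    rw [Subgroup.card_eq_card_quotient_mul_card_subgroup (Units.map (f : R →* S)).ker]
    congr 1
    exact Nat.card_congr (QuotientGroup.quotientKerEquivOfSurjective _ hsur).toEquiv
  have h2 : Nat.card R = Nat.card S * Nat.card (f : R →+ S).ker := by
    rw [AddSubgroup.card_eq_card_quotient_mul_card_addSubgroup (f : R →+ S).ker]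
    congr 1
    exact Nat.card_congr (QuotientAddGroup.quotientKerEquivOfSurjective (f : R →+ S) hf).toEquiv
  have h3 : Nat.card (Units.map (f : R →* S)).ker = Nat.card (f : R →+ S).ker := by
    refine Nat.card_congr (Equiv.ofBijective (fun u : (Units.map (f : R →* S)).ker =>
      (⟨(u : Rˣ) - 1, ?_⟩ : (f : R →+ S).ker)) ⟨?_, ?_⟩)
    · have := u.2
      rw [MonoidHom.mem_ker, Units.ext_iff] at this
      rw [AddMonoidHom.mem_ker]
      have h : f ((u : Rˣ) : R) = 1 := by simpa using this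
      change f (((u : Rˣ) : R) - 1) = 0
      rw [map_sub, h, map_one, sub_self]
    · intro u v huv
      rw [Subtype.ext_iff] at huv
      rw [Subtype.ext_iff, Units.ext_iff]
      exact sub_left_injective huv
    · rintro ⟨x, hx⟩
      have hx' : f x = 0 := hx
      have hxu : IsUnit (1 + x) := (hn x hx').isUnit_one_add
      refine ⟨⟨hxu.unit, ?_⟩, ?_⟩
      · rw [MonoidHom.mem_ker, Units.ext_iff]
        simp [hx']
      · rw [Subtype.ext_iff]
        simp
  rw [h1, h2, h3]
  ring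

/-- LMU. -/
theorem lmu : LmuStmt := by
  intro k _ _ Q hQ
  classical
  have hmax : ∀ p : HeightOneSpectrum (𝓞 k), p.asIdeal.IsMaximal := fun p => p.isMaximal
  let f : (𝓞 k ⧸ Ideal.span {(4 : 𝓞 k)}) →+* ((p : Q) → 𝓞 k ⧸ (p : HeightOneSpectrum (𝓞 k)).asIdeal) :=
    Ideal.Quotient.lift _ (RingHom.pi fun p : Q => Ideal.Quotient.mk (p : HeightOneSpectrum (𝓞 k)).asIdeal) (by
      intro a ha
      rw [Ideal.mem_span_singleton] at ha
      obtain ⟨c, rfl⟩ := ha
      ext p
      change Ideal.Quotient.mk (p : HeightOneSpectrum (𝓞 k)).asIdeal (4 * c) = 0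
      rw [Ideal.Quotient.eq_zero_iff_mem]
      have h2 := (hQ p.1).mp p.2
      have : (4 : 𝓞 k) * c = 2 * (2 * c) := by ring
      rw [this]
      exact Ideal.mul_mem_right _ _ h2)
  have hfmk : ∀ a (p : Q), f (Ideal.Quotient.mk _ a) p =
    Ideal.Quotient.mk (p : HeightOneSpectrum (𝓞 k)).asIdeal a := fun a p => rfl
  have hsur : Function.Surjective f := by
    intro y
    have hcop : Pairwise fun i j : Q => IsCoprime (i : HeightOneSpectrum (𝓞 k)).asIdeal
        (j : HeightOneSpectrum (𝓞 k)).asIdeal := by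
      intro i j hij
      rw [Ideal.isCoprime_iff_sup_eq]
      exact Ideal.IsMaximal.coprime_of_ne (hmax _) (hmax _) (fun h => hij (Subtype.ext
        (HeightOneSpectrum.ext h)))
    obtain ⟨a, ha⟩ := Ideal.exists_forall_sub_mem_ideal
      (I := fun i : Q => (i : HeightOneSpectrum (𝓞 k)).asIdeal)
      hcop (fun i => Quotient.out (y i))
    refine ⟨Ideal.Quotient.mk _ a, ?_⟩
    ext p
    rw [hfmk]
    have e : Ideal.Quotient.mk (p : HeightOneSpectrum (𝓞 k)).asIdeal (Quotient.out (y p)) = y p :=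
      Quotient.out_eq _
    rw [← e, Ideal.Quotient.eq]
    exact ha p
  have hnil : ∀ x, f x = 0 → IsNilpotent x := by
    intro x hx
    obtain ⟨a, rfl⟩ := Ideal.Quotient.mk_surjective x
    have ha : ∀ p : HeightOneSpectrum (𝓞 k), p ∈ Q → a ∈ p.asIdeal := by
      intro p hp
      have := congrFun hx ⟨p, hp⟩
      rw [hfmk, Pi.zero_apply, Ideal.Quotient.eq_zero_iff_mem] at this
      exact this
    have hrad : a ∈ (Ideal.span {(4 : 𝓞 k)}).radical := by
      rw [Ideal.radical_eq_sInf, Ideal.mem_sInf]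
      rintro J ⟨hJ4, hJp⟩
      have h4J : (4 : 𝓞 k) ∈ J := hJ4 (Ideal.mem_span_singleton_self _)
      have hJb : J ≠ ⊥ := by
        rintro rfl
        rw [Ideal.mem_bot] at h4J
        have h4 : (4 : 𝓞 k) = ((4 : ℕ) : 𝓞 k) := by norm_num
        rw [h4, Nat.cast_eq_zero] at h4J
        omega
      have h2J : (2 : 𝓞 k) ∈ J := by
        have : (2 : 𝓞 k) * 2 ∈ J := by
          have h : (2 : 𝓞 k) * 2 = 4 := by norm_num
          rwa [h]
        rcases hJp.mem_or_mem this with h | h <;> exact h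
      exact ha ⟨J, hJp, hJb⟩ ((hQ _).mpr h2J)
    obtain ⟨n, hn⟩ := hrad
    refine ⟨n, ?_⟩
    rw [← map_pow, Ideal.Quotient.eq_zero_iff_mem]
    exact hn
  have key := card_units_surj f hsur hnil
  have hcard : Nat.card (𝓞 k ⧸ Ideal.span {(4 : 𝓞 k)}) = 4 ^ finrank ℚ k := by
    simpa using card_nat (k := k) 4
  have hS : Nat.card ((p : Q) → 𝓞 k ⧸ (p : HeightOneSpectrum (𝓞 k)).asIdeal) =
      ∏ p ∈ Q, Ideal.absNorm p.asIdeal := by
    rw [Nat.card_pi, ← Finset.prod_coe_sort Q (fun p => Ideal.absNorm p.asIdeal)]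
    refine Finset.prod_congr rfl fun p _ => ?_
    rw [Ideal.absNorm_apply, Submodule.cardQuot_apply]
  have hN : ∀ p : HeightOneSpectrum (𝓞 k), 1 < Ideal.absNorm p.asIdeal := by
    intro p
    have h0 : Ideal.absNorm p.asIdeal ≠ 0 := by
      rw [Ne, Ideal.absNorm_eq_zero_iff]; exact p.ne_bot
    have h1 : Ideal.absNorm p.asIdeal ≠ 1 := by
      rw [Ne, Ideal.absNorm_eq_one_iff]; exact (hmax p).ne_top
    omega
  have hSu : (Nat.card ((p : Q) → 𝓞 k ⧸ (p : HeightOneSpectrum (𝓞 k)).asIdeal)ˣ : ℝ) =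
      ∏ p ∈ Q, (np p - 1) := by
    rw [Nat.card_congr (MulEquiv.piUnits (M := fun p : Q => 𝓞 k ⧸ (p : HeightOneSpectrum (𝓞 k)).asIdeal)).toEquiv,
      Nat.card_pi, ← Finset.prod_coe_sort Q (fun p => (np p - 1)), Nat.cast_prod]
    refine Finset.prod_congr rfl fun p _ => ?_
    let _ : Field (𝓞 k ⧸ (p : HeightOneSpectrum (𝓞 k)).asIdeal) := Ideal.Quotient.field _
    have hc : Nat.card (𝓞 k ⧸ (p : HeightOneSpectrum (𝓞 k)).asIdeal)ˣ =
      Ideal.absNorm (p : HeightOneSpectrum (𝓞 k)).asIdeal - 1 := by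
      rw [Nat.card_units, Ideal.absNorm_apply, Submodule.cardQuot_apply]
    rw [hc, Nat.cast_sub (hN _).le, np, Nat.cast_one]
  have key' : (Nat.card (𝓞 k ⧸ Ideal.span {(4 : 𝓞 k)})ˣ : ℝ) * ∏ p ∈ Q, np p =
      4 ^ finrank ℚ k * ∏ p ∈ Q, (np p - 1) := by
    have := congrArg (Nat.cast : ℕ → ℝ) key
    rw [Nat.cast_mul, Nat.cast_mul, hSu, hS, hcard, Nat.cast_prod] at this
    simpa [np] using this
  have hpos : ∀ p : HeightOneSpectrum (𝓞 k), 0 < np p := fun p => by
    have := hN p
    unfold np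
    exact_mod_cast (by omega : 0 < Ideal.absNorm p.asIdeal)
  have hprod : ∏ p ∈ Q, (1 - 1 / np p) = (∏ p ∈ Q, (np p - 1)) / ∏ p ∈ Q, np p := by
    rw [← Finset.prod_div_distrib]
    refine Finset.prod_congr rfl fun p _ => ?_
    have := (hpos p).ne'
    field_simp
  rw [hprod, ← mul_div_assoc, ← key']
  have : ∏ p ∈ Q, np p ≠ 0 := Finset.prod_ne_zero_iff.mpr fun p _ => (hpos p).ne'
  field_simp

end Pool.Agent.LeoK.H89
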